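import Mathlib

set_option autoImplicit false

/-! Counting coprime pairs, and a second moment bound for pairwise independent events. -/

namespace Pool.Agent.H540PL

open MeasureTheory Filter Topology Set
open scoped ENNReal

/-- the coprime pairs `(p, q)` with `N / 8 < p ≤ N`, `1 ≤ q ≤ N` -/
def F (N : ℕ) : Finset (ℕ × ℕ) :=
  ((Finset.Ioc 0 N) ×ˢ (Finset.Ioc 0 N)).filter (fun x => Nat.Coprime x.1 x.2 ∧ N < 8 * x.1)

theorem mem_F {N : ℕ} {x : ℕ × ℕ} :
    x ∈ F N ↔ 0 < x.1 ∧ x.1 ≤ N ∧ 0 < x.2 ∧ x.2 ≤ N ∧ Nat.Coprime x.1 x.2 ∧ N < 8 * x.1 := by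
  unfold F
  rw [Finset.mem_filter, Finset.mem_product, Finset.mem_Ioc, Finset.mem_Ioc]
  tauto

theorem indep_F {N : ℕ} {x y : ℕ × ℕ} (hx : x ∈ F N) (hy : y ∈ F N) (h : x ≠ y) :
    x.1 * y.2 ≠ y.1 * x.2 := by
  intro he
  rw [mem_F] at hx hy
  apply h
  have h1 : x.1 ∣ y.1 := by
    have : x.1 ∣ y.1 * x.2 := ⟨y.2, he.symm⟩
    exact hx.2.2.2.2.1.dvd_of_dvd_mul_right this
  have h2 : y.1 ∣ x.1 := by
    have : y.1 ∣ x.1 * y.2 := ⟨x.2, he⟩
    exact hy.2.2.2.2.1.dvd_of_dvd_mul_right this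
  have h3 : x.1 = y.1 := Nat.dvd_antisymm h1 h2
  rw [h3] at he
  have h4 : y.2 = x.2 := Nat.eq_of_mul_eq_mul_left hy.1 he
  exact Prod.ext h3 h4.symm

theorem sum_sq (N : ℕ) (hN : 2 ≤ N) :
    ∑ d ∈ Finset.Icc 2 N, (1 : ℝ) / (d : ℝ) ^ 2 ≤ 3 / 4 - 1 / (N : ℝ) := by
  induction N, hN using Nat.le_induction with
  | base => norm_num
  | succ n hn ih =>
    rw [Finset.sum_Icc_succ_top (by omega)]
    have hn0 : (0 : ℝ) < n := by exact_mod_cast (by omega : 0 < n)
    have h1 : (1 : ℝ) / (((n + 1 : ℕ) : ℝ)) ^ 2 ≤ 1 / (n : ℝ) - 1 / ((n + 1 : ℕ) : ℝ) := by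
      push_cast
      rw [div_sub_div _ _ hn0.ne' (by positivity), div_le_div_iff₀ (by positivity) (by positivity)]
      nlinarith
    linarith

theorem card_F (N : ℕ) (hN : 1 ≤ N) : (N : ℝ) ^ 2 / 8 ≤ (F N).card := by
  classical
  have hN0 : (0 : ℝ) < N := by exact_mod_cast hN
  -- the complement
  set P := (Finset.Ioc 0 N) ×ˢ (Finset.Ioc 0 N) with hP
  have hcov : P ⊆ F N ∪ ((Finset.Icc 2 N).biUnion (fun d => ((Finset.Ioc 0 N).filter (d ∣ ·)) ×ˢ
      ((Finset.Ioc 0 N).filter (d ∣ ·))) ∪ (Finset.Ioc 0 (N / 8)) ×ˢ (Finset.Ioc 0 N)) := by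
    intro x hx
    rw [hP, Finset.mem_product, Finset.mem_Ioc, Finset.mem_Ioc] at hx
    by_cases h8 : N < 8 * x.1
    · by_cases hc : Nat.Coprime x.1 x.2
      · exact Finset.mem_union_left _ (mem_F.2 ⟨hx.1.1, hx.1.2, hx.2.1, hx.2.2, hc, h8⟩)
      · apply Finset.mem_union_right
        apply Finset.mem_union_left
        rw [Finset.mem_biUnion]
        have hg0 : 0 < Nat.gcd x.1 x.2 := Nat.gcd_pos_of_pos_left _ hx.1.1
        have hg1 : Nat.gcd x.1 x.2 ≠ 1 := hc
        have hg2 : Nat.gcd x.1 x.2 ≤ x.1 := Nat.gcd_le_left _ hx.1.1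
        refine ⟨Nat.gcd x.1 x.2, ?_, ?_⟩
        · rw [Finset.mem_Icc]
          omega
        · rw [Finset.mem_product, Finset.mem_filter, Finset.mem_filter, Finset.mem_Ioc,
            Finset.mem_Ioc]
          exact ⟨⟨hx.1, Nat.gcd_dvd_left _ _⟩, ⟨hx.2, Nat.gcd_dvd_right _ _⟩⟩
    · apply Finset.mem_union_right
      apply Finset.mem_union_right
      rw [Finset.mem_product, Finset.mem_Ioc, Finset.mem_Ioc]
      refine ⟨⟨hx.1.1, ?_⟩, hx.2⟩
      rw [Nat.le_div_iff_mul_le (by norm_num)]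
      omega
  have h1 : (P.card : ℝ) ≤ (F N).card + (∑ d ∈ Finset.Icc 2 N, ((N / d : ℕ) : ℝ) ^ 2 +
      ((N / 8 : ℕ) : ℝ) * N) := by
    have h2 := (Finset.card_le_card hcov).trans (Finset.card_union_le _ _)
    have h3 := Finset.card_union_le ((Finset.Icc 2 N).biUnion (fun d =>
      ((Finset.Ioc 0 N).filter (d ∣ ·)) ×ˢ ((Finset.Ioc 0 N).filter (d ∣ ·))))
      ((Finset.Ioc 0 (N / 8)) ×ˢ (Finset.Ioc 0 N))
    have h4 : ((Finset.Icc 2 N).biUnion (fun d =>
      ((Finset.Ioc 0 N).filter (d ∣ ·)) ×ˢ ((Finset.Ioc 0 N).filter (d ∣ ·)))).card ≤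
      ∑ d ∈ Finset.Icc 2 N, (N / d) ^ 2 := by
      refine Finset.card_biUnion_le.trans (Finset.sum_le_sum fun d _ => ?_)
      rw [Finset.card_product, Nat.Ioc_filter_dvd_card_eq_div, sq]
    have h5 : ((Finset.Ioc 0 (N / 8)) ×ˢ (Finset.Ioc 0 N)).card = N / 8 * N := by
      rw [Finset.card_product, Nat.card_Ioc, Nat.card_Ioc]
      simp
    rw [h5] at h3
    have h6 : P.card ≤ (F N).card + (∑ d ∈ Finset.Icc 2 N, (N / d) ^ 2 + N / 8 * N) := by
      omega
    have h7 : (P.card : ℝ) ≤ (((F N).card + (∑ d ∈ Finset.Icc 2 N, (N / d) ^ 2 + N / 8 * N) : ℕ) : ℝ) := by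
      exact_mod_cast h6
    refine h7.trans (le_of_eq ?_)
    push_cast
    rfl
  have h2 : (P.card : ℝ) = (N : ℝ) ^ 2 := by
    rw [hP, Finset.card_product, Nat.card_Ioc]
    simp [sq]
  have h3 : ((N / 8 : ℕ) : ℝ) ≤ N / 8 := Nat.cast_div_le
  have h4 : ∑ d ∈ Finset.Icc 2 N, ((N / d : ℕ) : ℝ) ^ 2 ≤ (N : ℝ) ^ 2 * (3 / 4) := by
    have h5 : ∑ d ∈ Finset.Icc 2 N, ((N / d : ℕ) : ℝ) ^ 2 ≤
        ∑ d ∈ Finset.Icc 2 N, (N : ℝ) ^ 2 * (1 / (d : ℝ) ^ 2) := by
      refine Finset.sum_le_sum fun d hd => ?_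
      rw [Finset.mem_Icc] at hd
      have hd0 : (0 : ℝ) < d := by exact_mod_cast (by omega : 0 < d)
      have h6 : ((N / d : ℕ) : ℝ) ≤ N / d := Nat.cast_div_le
      calc ((N / d : ℕ) : ℝ) ^ 2 ≤ ((N : ℝ) / d) ^ 2 := by
            apply pow_le_pow_left₀ (by positivity) h6
        _ = _ := by rw [div_pow]; ring
    refine h5.trans ?_
    rw [← Finset.mul_sum]
    apply mul_le_mul_of_nonneg_left _ (by positivity)
    by_cases h2N : 2 ≤ N
    · have := sum_sq N h2N
      have h7 : (0 : ℝ) < 1 / N := by positivity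
      linarith
    · have : Finset.Icc 2 N = ∅ := Finset.Icc_eq_empty (by omega)
      rw [this]
      norm_num
  rw [h2] at h1
  nlinarith

/-- Second moment bound for pairwise independent events. -/
theorem cheb {Ω ι : Type*} [MeasurableSpace Ω] [DecidableEq ι] (μ : Measure Ω)
    [IsProbabilityMeasure μ] (S : Finset ι) (A : ι → Set Ω) (hA : ∀ i ∈ S, MeasurableSet (A i))
    (m : ℝ) (hm : 0 ≤ m) (h1 : ∀ i ∈ S, μ.real (A i) = m)
    (h2 : ∀ i ∈ S, ∀ j ∈ S, i ≠ j → μ.real (A i ∩ A j) = m ^ 2) :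
    μ.real {x | ∀ i ∈ S, x ∉ A i} * (S.card * m) ≤ 1 := by
  classical
  set a : ℝ := S.card * m with ha
  set f : Ω → ℝ := fun x => ∑ i ∈ S, (A i).indicator (fun _ => (1 : ℝ)) x with hf
  have hi : ∀ i ∈ S, Integrable ((A i).indicator (fun _ => (1 : ℝ))) μ := fun i hi =>
    (integrable_const _).indicator (hA i hi)
  have hii : ∀ i ∈ S, ∀ j ∈ S, Integrable (fun x => (A i).indicator (fun _ => (1 : ℝ)) x *
      (A j).indicator (fun _ => (1 : ℝ)) x) μ := by
    intro i hi j hj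
    have : (fun x => (A i).indicator (fun _ => (1 : ℝ)) x * (A j).indicator (fun _ => (1 : ℝ)) x) =
        (A i ∩ A j).indicator (fun _ => (1 : ℝ)) := by
      ext x
      by_cases h1 : x ∈ A i <;> by_cases h2 : x ∈ A j <;> simp [h1, h2]
    rw [this]
    exact (integrable_const _).indicator ((hA i hi).inter (hA j hj))
  have hij : ∀ i ∈ S, ∀ j ∈ S, ∫ x, (A i).indicator (fun _ => (1 : ℝ)) x *
      (A j).indicator (fun _ => (1 : ℝ)) x ∂μ = if i = j then m else m ^ 2 := by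
    intro i hi j hj
    have : (fun x => (A i).indicator (fun _ => (1 : ℝ)) x * (A j).indicator (fun _ => (1 : ℝ)) x) =
        (A i ∩ A j).indicator (fun _ => (1 : ℝ)) := by
      ext x
      by_cases h1 : x ∈ A i <;> by_cases h2 : x ∈ A j <;> simp [h1, h2]
    rw [this, integral_indicator_const _ ((hA i hi).inter (hA j hj))]
    split_ifs with h
    · subst h
      rw [Set.inter_self, h1 i hi]
      simp
    · rw [h2 i hi j hj h]
      simp
  have hE1 : ∫ x, f x ∂μ = a := by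
    rw [hf, integral_finsetSum S hi]
    rw [Finset.sum_congr rfl (fun i hiS => by rw [integral_indicator_const _ (hA i hiS), h1 i hiS])]
    simp [ha]
  have hfint : Integrable f μ := integrable_finsetSum S hi
  have hsq : ∀ x, f x ^ 2 = ∑ i ∈ S, ∑ j ∈ S, (A i).indicator (fun _ => (1 : ℝ)) x *
      (A j).indicator (fun _ => (1 : ℝ)) x := by
    intro x
    rw [sq, hf, Finset.sum_mul_sum]
  have hsqint : Integrable (fun x => f x ^ 2) μ := by
    simp_rw [hsq]
    exact integrable_finsetSum S fun i hiS => integrable_finsetSum S fun j hj => hii i hiS j hj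
  have hE2 : ∫ x, f x ^ 2 ∂μ ≤ a + a ^ 2 := by
    simp_rw [hsq]
    rw [integral_finsetSum S (fun i hiS => integrable_finsetSum S fun j hj => hii i hiS j hj)]
    have e1 : ∀ i ∈ S, ∫ x, ∑ j ∈ S, (A i).indicator (fun _ => (1 : ℝ)) x *
      (A j).indicator (fun _ => (1 : ℝ)) x ∂μ ≤ m + S.card * m ^ 2 := by
      intro i hiS
      rw [integral_finsetSum S (fun j hj => hii i hiS j hj),
        Finset.sum_congr rfl (fun j hj => hij i hiS j hj)]
      calc ∑ j ∈ S, (if i = j then m else m ^ 2) ≤ ∑ j ∈ S, ((if i = j then m else 0) + m ^ 2) := by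
            refine Finset.sum_le_sum fun j _ => ?_
            split_ifs
            · nlinarith
            · linarith
        _ = m + S.card * m ^ 2 := by
            rw [Finset.sum_add_distrib, Finset.sum_ite_eq, if_pos hiS]
            simp
    refine (Finset.sum_le_sum e1).trans (le_of_eq ?_)
    rw [Finset.sum_const, nsmul_eq_mul, ha]
    ring
  have hvar : ∫ x, (f x - a) ^ 2 ∂μ ≤ a := by
    have e : (fun x => (f x - a) ^ 2) = fun x => (f x ^ 2 - 2 * a * f x) + a ^ 2 := by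
      ext x; ring
    have i1 : Integrable (fun x => 2 * a * f x) μ := hfint.const_mul _
    have i2 : Integrable (fun x => f x ^ 2 - 2 * a * f x) μ := hsqint.sub i1
    rw [e, integral_add i2 (integrable_const _), integral_sub hsqint i1, integral_const_mul, hE1]
    simp
    nlinarith
  set B : Set Ω := {x | ∀ i ∈ S, x ∉ A i} with hB
  have hBm : MeasurableSet B := by
    have : B = ⋂ i ∈ S, (A i)ᶜ := by
      ext x
      simp [hB]
    rw [this]
    exact Finset.measurableSet_biInter S fun i hiS => (hA i hiS).compl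
  have hlow : μ.real B * a ^ 2 ≤ ∫ x, (f x - a) ^ 2 ∂μ := by
    have e : μ.real B * a ^ 2 = ∫ x, B.indicator (fun _ => a ^ 2) x ∂μ := by
      rw [integral_indicator_const _ hBm]
      simp
    rw [e]
    apply integral_mono ((integrable_const _).indicator hBm)
    · have e2 : (fun x => (f x - a) ^ 2) = fun x => (f x ^ 2 - 2 * a * f x) + a ^ 2 := by
        ext x; ring
      rw [e2]
      exact (hsqint.sub (hfint.const_mul _)).add (integrable_const _)
    · intro x
      by_cases hx : x ∈ B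
      · rw [Set.indicator_of_mem hx]
        have : f x = 0 := by
          rw [hf]
          apply Finset.sum_eq_zero
          intro i hiS
          rw [Set.indicator_of_notMem (hx i hiS)]
        show a ^ 2 ≤ (f x - a) ^ 2
        rw [this]
        simp
      · rw [Set.indicator_of_notMem hx]
        positivity
  have ha0 : 0 ≤ a := by positivity
  rcases ha0.eq_or_lt with h0 | h0
  · rw [← h0]
    simp
  · have h3 := hlow.trans hvar
    have h4 : (μ.real B * a) * a ≤ 1 * a := by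
      rw [one_mul]
      calc μ.real B * a * a = μ.real B * a ^ 2 := by ring
        _ ≤ a := h3
    exact le_of_mul_le_mul_right h4 h0

end Pool.Agent.H540PL
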