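import Pool.Agent.H540PL.Torus
import Pool.Agent.R331.MT.Three

set_option autoImplicit false

/-! Lower bound for the dimension: mass transference in the slices, then integration. -/

namespace Pool.Agent.H540PL

open MeasureTheory Filter Topology Set
open scoped ENNReal

/-- The points `(ξ, η)` of the plane for which, for some `c > 0`, the inequality
`|p ξ + q η + r| < c max(p, q) ^ (-w)` has infinitely many integer solutions `(p, q, r)` with
`p > 0` and `q > 0`. -/
def E (w : ℝ) : Set (EuclideanSpace ℝ (Fin 2)) :=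
  {x | ∃ c : ℝ, 0 < c ∧ {t : ℤ × ℤ × ℤ | 0 < t.1 ∧ 0 < t.2.1 ∧
    |(t.1 : ℝ) * x 0 + (t.2.1 : ℝ) * x 1 + (t.2.2 : ℝ)| <
      c * ((max t.1 t.2.1 : ℤ) : ℝ) ^ (-w)}.Infinite}

/-- the good ordinates -/
def Good (τ y : ℝ) : Prop :=
  ∀ᵐ x ∂((volume : Measure ℝ).restrict (Ioc 0 1)), ∃ᶠ N : ℕ in atTop, ∃ pq ∈ F N, ∃ r : ℤ,
    |(pq.1 : ℝ) * x + (pq.2 : ℝ) * y + r| ≤ (N : ℝ) ^ (-τ) / 2

theorem slice_bound {w t s τ : ℝ} (hw : 2 < w) (hs : 0 < s) (hst : s < t) (ht : t ≤ 1)
    (hτ : τ + 1 = t * (w + 1)) {y : ℝ} (hy : Good τ y)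
    (A : ℕ → Set (EuclideanSpace ℝ (Fin 2))) (hA : E w ⊆ ⋃ j, A j) :
    ENNReal.ofReal (1/20) ≤ ∑' j, Metric.ediam {x : ℝ | (!₂[x, y] : EuclideanSpace ℝ (Fin 2)) ∈ A j} ^ s := by
  have ht0 : 0 < t := hs.trans hst
  refine Pool.Agent.R331.MT.content hs hst ht
    (fun k => {c : ℝ | ∃ pq ∈ F (k + 1), ∃ r : ℤ, c = -((pq.2 : ℝ) * y + r) / pq.1})
    (fun k => 8 * ((k + 1 : ℕ) : ℝ) ^ (-(τ + 1))) (fun k => by positivity) ?_ ?_ _ ?_
  · have h1 := (tendsto_rpow_neg_atTop (show 0 < τ + 1 by rw [hτ]; positivity)).comp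
      ((tendsto_natCast_atTop_atTop (R := ℝ)).comp (tendsto_add_atTop_nat 1))
    simpa using h1.const_mul 8
  · have h1 := (ae_restrict_iff' (measurableSet_Ioc (a := (0 : ℝ)) (b := 1))).1 hy
    filter_upwards [h1] with x hx hx01
    have h2 := hx ⟨hx01.1, hx01.2.le⟩
    rw [frequently_atTop] at h2 ⊢
    intro m
    obtain ⟨N, hN, pq, hpq, r, hr⟩ := h2 (m + 1)
    obtain ⟨k, rfl⟩ : ∃ k, N = k + 1 := ⟨N - 1, by omega⟩
    refine ⟨k, by omega, -((pq.2 : ℝ) * y + r) / pq.1, ⟨pq, hpq, r, rfl⟩, ?_⟩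
    have hF := mem_F.1 hpq
    have hp0 : (0 : ℝ) < pq.1 := by exact_mod_cast hF.1
    have hN0 : (0 : ℝ) < ((k + 1 : ℕ) : ℝ) := by positivity
    have h8 : ((k + 1 : ℕ) : ℝ) < 8 * pq.1 := by exact_mod_cast hF.2.2.2.2.2
    have e1 : x - -((pq.2 : ℝ) * y + r) / pq.1 = ((pq.1 : ℝ) * x + pq.2 * y + r) / pq.1 := by
      field_simp
      ring
    rw [e1, abs_div, abs_of_pos hp0, div_lt_iff₀ hp0]
    refine hr.trans_lt ?_
    have e2 : ((k + 1 : ℕ) : ℝ) ^ (-(τ + 1)) = ((k + 1 : ℕ) : ℝ) ^ (-τ) / ((k + 1 : ℕ) : ℝ) := by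
      rw [neg_add, Real.rpow_add hN0, Real.rpow_neg_one]
      rfl
    rw [e2]
    have h9 : 0 < ((k + 1 : ℕ) : ℝ) ^ (-τ) := by positivity
    have h10 : 8 * (((k + 1 : ℕ) : ℝ) ^ (-τ) / ((k + 1 : ℕ) : ℝ)) * pq.1 =
        ((k + 1 : ℕ) : ℝ) ^ (-τ) * (8 * pq.1 / ((k + 1 : ℕ) : ℝ)) := by ring
    rw [h10]
    have h11 : 1 < 8 * (pq.1 : ℝ) / ((k + 1 : ℕ) : ℝ) := by rwa [one_lt_div hN0]
    nlinarith
  · rintro x ⟨hx01, hx⟩
    have hxE : (!₂[x, y] : EuclideanSpace ℝ (Fin 2)) ∈ E w := by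
      refine ⟨8 ^ (1 / t), by positivity, ?_⟩
      intro hfin
      obtain ⟨B, hB⟩ := (hfin.image Prod.fst).bddAbove
      rw [frequently_atTop] at hx
      obtain ⟨k, hk, c, ⟨pq, hpq, r, rfl⟩, hc⟩ := hx (8 * B.toNat)
      have hF := mem_F.1 hpq
      have hp0 : (0 : ℝ) < pq.1 := by exact_mod_cast hF.1
      have hq0 : (0 : ℝ) < pq.2 := by exact_mod_cast hF.2.2.1
      have hN0 : (0 : ℝ) < ((k + 1 : ℕ) : ℝ) := by positivity
      have hval : |(pq.1 : ℝ) * x + (pq.2 : ℝ) * y + r| <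
          8 ^ (1 / t) * ((max pq.1 pq.2 : ℕ) : ℝ) ^ (-w) := by
        have e1 : x - -((pq.2 : ℝ) * y + r) / pq.1 = ((pq.1 : ℝ) * x + pq.2 * y + r) / pq.1 := by
          field_simp
          ring
        rw [e1, abs_div, abs_of_pos hp0, div_lt_iff₀ hp0] at hc
        refine hc.trans_le ?_
        have e2 : (8 * ((k + 1 : ℕ) : ℝ) ^ (-(τ + 1))) ^ (1 / t) =
            8 ^ (1 / t) * (((k + 1 : ℕ) : ℝ) ^ (-w) / ((k + 1 : ℕ) : ℝ)) := by
          rw [Real.mul_rpow (by norm_num) (by positivity), ← Real.rpow_mul hN0.le, hτ]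
          congr 1
          have : -(t * (w + 1)) * (1 / t) = -w + -1 := by
            field_simp
            ring
          rw [this, Real.rpow_add hN0, Real.rpow_neg_one]
          rfl
        rw [e2, mul_assoc]
        apply mul_le_mul_of_nonneg_left _ (by positivity)
        have h5 : ((k + 1 : ℕ) : ℝ) ^ (-w) ≤ ((max pq.1 pq.2 : ℕ) : ℝ) ^ (-w) := by
          apply Real.rpow_le_rpow_of_nonpos
          · exact_mod_cast lt_of_lt_of_le hF.1 (le_max_left _ _)
          · exact_mod_cast max_le hF.2.1 hF.2.2.2.1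
          · linarith
        refine le_trans ?_ h5
        rw [div_mul_eq_mul_div, div_le_iff₀ hN0]
        apply mul_le_mul_of_nonneg_left _ (by positivity)
        exact_mod_cast hF.2.1
      have hle := hB ⟨((pq.1 : ℤ), (pq.2 : ℤ), r), ⟨by
          show (0 : ℤ) < (pq.1 : ℤ)
          exact_mod_cast hF.1, by
          show (0 : ℤ) < (pq.2 : ℤ)
          exact_mod_cast hF.2.2.1, by
          have hmax : ((max (pq.1 : ℤ) (pq.2 : ℤ) : ℤ) : ℝ) = ((max pq.1 pq.2 : ℕ) : ℝ) := by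
            push_cast
            rfl
          rw [hmax]
          simpa using hval⟩, rfl⟩
      have h8 : k + 1 < 8 * pq.1 := hF.2.2.2.2.2
      simp only at hle
      omega
    obtain ⟨j, hj⟩ := mem_iUnion.1 (hA hxE)
    exact mem_iUnion.2 ⟨j, hj⟩

theorem slice_le {s : ℝ} (hs : 0 < s) (A : Set (EuclideanSpace ℝ (Fin 2)))
    (hfin : Metric.ediam A ≠ ⊤) :
    ∃ I : Set ℝ, MeasurableSet I ∧ volume I ≤ 2 * Metric.ediam A ∧
      ∀ y : ℝ, Metric.ediam {x : ℝ | (!₂[x, y] : EuclideanSpace ℝ (Fin 2)) ∈ A} ^ s ≤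
        I.indicator (fun _ => Metric.ediam A ^ s) y := by
  classical
  by_cases hne : A.Nonempty
  · obtain ⟨u, hu⟩ := hne
    set d : ℝ := (Metric.ediam A).toReal with hd
    have hd1 : ENNReal.ofReal d = Metric.ediam A := ENNReal.ofReal_toReal hfin
    refine ⟨Icc (u 1 - d) (u 1 + d), measurableSet_Icc, ?_, ?_⟩
    · rw [Real.volume_Icc, ← hd1]
      have : u 1 + d - (u 1 - d) = 2 * d := by ring
      rw [this, ENNReal.ofReal_mul (by norm_num)]
      simp
    · intro y
      by_cases hy : y ∈ Icc (u 1 - d) (u 1 + d)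
      · rw [indicator_of_mem hy]
        apply ENNReal.rpow_le_rpow _ hs.le
        apply Metric.ediam_le
        intro a ha b hb
        refine le_trans ?_ (Metric.edist_le_ediam_of_mem ha hb)
        rw [edist_dist, edist_dist]
        apply ENNReal.ofReal_le_ofReal
        have h1 := PiLp.norm_apply_le ((!₂[a, y] : EuclideanSpace ℝ (Fin 2)) - !₂[b, y]) 0
        rw [dist_eq_norm, dist_eq_norm]
        simpa using h1
      · have : {x : ℝ | (!₂[x, y] : EuclideanSpace ℝ (Fin 2)) ∈ A} = ∅ := by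
          rw [eq_empty_iff_forall_notMem]
          intro x hx
          apply hy
          have h1 := PiLp.norm_apply_le ((!₂[x, y] : EuclideanSpace ℝ (Fin 2)) - u) 1
          have h2 : dist (!₂[x, y] : EuclideanSpace ℝ (Fin 2)) u ≤ d := by
            have hx' : (!₂[x, y] : EuclideanSpace ℝ (Fin 2)) ∈ A := hx
            have h3 := Metric.edist_le_ediam_of_mem hx' hu
            rw [edist_dist, ← hd1] at h3
            exact (ENNReal.ofReal_le_ofReal_iff ENNReal.toReal_nonneg).1 h3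
          rw [← dist_eq_norm] at h1
          have h4 : |y - u 1| ≤ d := by
            refine le_trans ?_ h2
            simpa using h1
          rw [abs_le] at h4
          constructor <;> linarith
        rw [this]
        simp [hs]
  · rw [not_nonempty_iff_eq_empty] at hne
    refine ⟨∅, MeasurableSet.empty, by simp, ?_⟩
    intro y
    subst hne
    simp [hs]

/-- positive Hausdorff measure -/
theorem measure_pos {w t s τ : ℝ} (hw : 2 < w) (hs : 0 < s) (hst : s < t) (ht : t ≤ 1)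
    (hτ : τ + 1 = t * (w + 1)) (hτ0 : 0 ≤ τ) (hτ2 : τ < 2) :
    ENNReal.ofReal (1 / 40) ≤ Measure.hausdorffMeasure (1 + s) (E w) := by
  rw [Measure.hausdorffMeasure_apply]
  refine le_iSup₂_of_le 1 one_pos ?_
  refine le_iInf fun A => le_iInf fun hcov => le_iInf fun hdiam => ?_
  have hfin : ∀ j, Metric.ediam (A j) ≠ ⊤ := fun j => ne_top_of_le_ne_top ENNReal.one_ne_top (hdiam j)
  choose I hI1 hI2 hI3 using fun j => slice_le hs (A j) (hfin j)
  have h1 : ∀ᵐ y ∂((volume : Measure ℝ).restrict (Ioc 0 1)), ENNReal.ofReal (1/20) ≤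
      ∑' j, (I j).indicator (fun _ => Metric.ediam (A j) ^ s) y := by
    filter_upwards [ae_real hτ0 hτ2] with y hy
    exact (slice_bound hw hs hst ht hτ hy A hcov).trans (ENNReal.tsum_le_tsum fun j => hI3 j y)
  have h2 : ENNReal.ofReal (1 / 20) ≤ ∑' j, 2 * Metric.ediam (A j) ^ (1 + s) := by
    calc ENNReal.ofReal (1 / 20) = ∫⁻ _ in Ioc (0 : ℝ) 1, ENNReal.ofReal (1 / 20) := by
          rw [lintegral_const]
          simp
      _ ≤ ∫⁻ y in Ioc (0 : ℝ) 1, ∑' j, (I j).indicator (fun _ => Metric.ediam (A j) ^ s) y :=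
          lintegral_mono_ae h1
      _ = ∑' j, ∫⁻ y in Ioc (0 : ℝ) 1, (I j).indicator (fun _ => Metric.ediam (A j) ^ s) y := by
          rw [lintegral_tsum fun j => (measurable_const.indicator (hI1 j)).aemeasurable]
      _ ≤ ∑' j, 2 * Metric.ediam (A j) ^ (1 + s) := by
          refine ENNReal.tsum_le_tsum fun j => ?_
          rw [lintegral_indicator (hI1 j), lintegral_const]
          calc Metric.ediam (A j) ^ s * ((volume.restrict (Ioc (0 : ℝ) 1)).restrict (I j)) univ
              ≤ Metric.ediam (A j) ^ s * (2 * Metric.ediam (A j)) := by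
                gcongr
                refine le_trans ?_ (hI2 j)
                rw [Measure.restrict_apply_univ]
                exact Measure.restrict_le_self _
            _ = 2 * Metric.ediam (A j) ^ (1 + s) := by
                rw [add_comm, ENNReal.rpow_add_of_nonneg _ _ hs.le zero_le_one, ENNReal.rpow_one]
                ring
  have h3 : 2 * ENNReal.ofReal (1 / 40) ≤ 2 * ∑' j, Metric.ediam (A j) ^ (1 + s) := by
    rw [← ENNReal.tsum_mul_left]
    refine le_trans (le_of_eq ?_) h2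
    have : (2 : ℝ≥0∞) = ENNReal.ofReal 2 := by simp
    rw [this, ← ENNReal.ofReal_mul (by norm_num)]
    norm_num
  have h4 : ENNReal.ofReal (1 / 40) ≤ ∑' j, Metric.ediam (A j) ^ (1 + s) :=
    (ENNReal.mul_le_mul_iff_right (by norm_num) (by norm_num)).1 h3
  refine h4.trans (ENNReal.tsum_le_tsum fun j => ?_)
  by_cases hne : (A j).Nonempty
  · rw [iSup_pos hne]
  · have : A j = ∅ := not_nonempty_iff_eq_empty.mp hne
    rw [iSup_neg hne, this]
    have : 0 < 1 + s := by linarith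
    simp [this]

theorem lower {w : ℝ} (hw : 2 < w) : ENNReal.ofReal (1 + 3 / (w + 1)) ≤ dimH (E w) := by
  have hw1 : 0 < w + 1 := by linarith
  have h31 : 3 / (w + 1) < 1 := by rw [div_lt_one hw1]; linarith
  have h30 : 0 < 3 / (w + 1) := by positivity
  have main : ∀ s : ℝ, 1 / (w + 1) < s → s < 3 / (w + 1) → ENNReal.ofReal (1 + s) ≤ dimH (E w) := by
    intro s hs1 hs2
    have hs0 : 0 < s := lt_trans (by positivity) hs1
    have h5 : 3 / (w + 1) * (w + 1) = 3 := by field_simp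
    have h6 : 1 / (w + 1) * (w + 1) = 1 := by field_simp
    have h7 : s * (w + 1) < 3 := by
      calc s * (w + 1) < 3 / (w + 1) * (w + 1) := by gcongr
        _ = 3 := h5
    have h8 : 1 < s * (w + 1) := by
      calc 1 = 1 / (w + 1) * (w + 1) := h6.symm
        _ < s * (w + 1) := by gcongr
    have key := measure_pos (w := w) (t := (s + 3 / (w + 1)) / 2) (s := s)
      (τ := (s + 3 / (w + 1)) / 2 * (w + 1) - 1) hw hs0 (by linarith) (by linarith) (by ring)
      (by
        have : (s + 3 / (w + 1)) / 2 * (w + 1) = (s * (w + 1) + 3) / 2 := by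
          linear_combination (1 / 2) * h5
        rw [this]; linarith)
      (by
        have : (s + 3 / (w + 1)) / 2 * (w + 1) = (s * (w + 1) + 3) / 2 := by
          linear_combination (1 / 2) * h5
        rw [this]; linarith)
    have h3 := le_dimH_of_hausdorffMeasure_ne_zero (s := E w) (d := (1 + s).toNNReal) (by
      rw [Real.coe_toNNReal _ (by linarith)]
      intro h0
      rw [h0] at key
      simp at key)
    exact h3
  refine le_of_forall_lt fun b hb => ?_
  have hbt : b ≠ ⊤ := ne_top_of_lt hb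
  set r : ℝ := b.toReal with hr
  have hbr : b = ENNReal.ofReal r := (ENNReal.ofReal_toReal hbt).symm
  have hr0 : 0 ≤ r := ENNReal.toReal_nonneg
  rw [hbr] at hb ⊢
  have hrt : r < 1 + 3 / (w + 1) := (ENNReal.ofReal_lt_ofReal_iff (by linarith)).1 hb
  have h13 : 1 / (w + 1) < 3 / (w + 1) := by gcongr; norm_num
  set m : ℝ := max (r - 1) (1 / (w + 1)) with hm
  have hm1 : m < 3 / (w + 1) := max_lt (by linarith) h13
  refine lt_of_lt_of_le ?_ (main ((m + 3 / (w + 1)) / 2) ?_ (by linarith))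
  · have : r - 1 ≤ m := le_max_left _ _
    have h10 : 1 / (w + 1) ≤ m := le_max_right _ _
    have h11 : 0 < 1 / (w + 1) := by positivity
    exact (ENNReal.ofReal_lt_ofReal_iff (by linarith)).2 (by linarith)
  · have h10 : 1 / (w + 1) ≤ m := le_max_right _ _
    linarith

end Pool.Agent.H540PL
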