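import Pool.Agent.H540PL.Count

set_option autoImplicit false

/-! For almost every point of the torus, the linear forms with positive coprime coefficients
`p, q ≤ N`, `p > N / 8`, take a value of size `N ^ (-τ)`, for infinitely many `N`, if `τ < 2`. -/

namespace Pool.Agent.H540PL

open MeasureTheory Filter Topology Set
open scoped ENNReal

/-- the circle -/
abbrev TT := UnitAddCircle

instance : IsProbabilityMeasure (volume : Measure TT) := ⟨UnitAddCircle.measure_univ⟩

/-- the endomorphism of the torus with matrix `(a, b; c, d)` -/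
noncomputable def phi (a b c d : ℤ) : TT × TT →+ TT × TT where
  toFun z := (a • z.1 + b • z.2, c • z.1 + d • z.2)
  map_zero' := by simp
  map_add' x y := by
    ext
    · show a • (x.1 + y.1) + b • (x.2 + y.2) = (a • x.1 + b • x.2) + (a • y.1 + b • y.2)
      rw [smul_add, smul_add]; abel
    · show c • (x.1 + y.1) + d • (x.2 + y.2) = (c • x.1 + d • x.2) + (c • y.1 + d • y.2)
      rw [smul_add, smul_add]; abel

theorem phi_apply (a b c d : ℤ) (z : TT × TT) :
    phi a b c d z = (a • z.1 + b • z.2, c • z.1 + d • z.2) := rfl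

theorem phi_cont (a b c d : ℤ) : Continuous (phi a b c d) := by
  show Continuous fun z : TT × TT => (a • z.1 + b • z.2, c • z.1 + d • z.2)
  exact ((continuous_fst.zsmul a).add (continuous_snd.zsmul b)).prodMk
    ((continuous_fst.zsmul c).add (continuous_snd.zsmul d))

theorem phi_surj {a b c d : ℤ} (h : a * d - b * c ≠ 0) : Function.Surjective (phi a b c d) := by
  rintro ⟨u, v⟩
  set D : ℤ := a * d - b * c with hD
  have hu : D • (DivisibleBy.div u D) = u := DivisibleBy.div_cancel u h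
  have hv : D • (DivisibleBy.div v D) = v := DivisibleBy.div_cancel v h
  generalize DivisibleBy.div u D = u' at hu
  generalize DivisibleBy.div v D = v' at hv
  refine ⟨(d • u' - b • v', -(c • u') + a • v'), ?_⟩
  rw [phi_apply]
  ext
  · show a • (d • u' - b • v') + b • (-(c • u') + a • v') = u
    rw [← hu, hD, sub_smul, smul_sub, smul_add, smul_neg, smul_smul, smul_smul, smul_smul,
      smul_smul, mul_comm b a]
    abel
  · show c • (d • u' - b • v') + d • (-(c • u') + a • v') = v
    rw [← hv, hD, sub_smul, smul_sub, smul_add, smul_neg, smul_smul, smul_smul, smul_smul,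
      smul_smul, mul_comm c d, mul_comm d a, mul_comm b c]
    abel

theorem phi_mp {a b c d : ℤ} (h : a * d - b * c ≠ 0) :
    MeasurePreserving (phi a b c d) ((volume : Measure TT).prod volume)
      ((volume : Measure TT).prod volume) :=
  AddMonoidHom.measurePreserving (phi_cont a b c d) (phi_surj h) rfl

/-- the strip `‖a x + b y‖ ≤ e` -/
def strip (e : ℝ) (a b : ℤ) : Set (TT × TT) := {z | ‖a • z.1 + b • z.2‖ ≤ e}

theorem strip_closed (e : ℝ) (a b : ℤ) : IsClosed (strip e a b) :=
  isClosed_le ((continuous_fst.zsmul a).add (continuous_snd.zsmul b)).norm continuous_const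

theorem strip_pair {e : ℝ} (he0 : 0 ≤ e) (he : e ≤ 1 / 2) {a b c d : ℤ} (h : a * d - b * c ≠ 0) :
    ((volume : Measure TT).prod volume).real (strip e a b ∩ strip e c d) = (2 * e) ^ 2 := by
  have h1 : strip e a b ∩ strip e c d =
      phi a b c d ⁻¹' (Metric.closedBall 0 e ×ˢ Metric.closedBall 0 e) := by
    ext z
    simp [strip, phi_apply]
  rw [h1, measureReal_def, (phi_mp h).measure_preimage
    (measurableSet_closedBall.prod measurableSet_closedBall).nullMeasurableSet, Measure.prod_prod,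
    AddCircle.volume_closedBall, ENNReal.toReal_mul, ENNReal.toReal_ofReal (by positivity),
    min_eq_right (by linarith), sq]

theorem strip_one {e : ℝ} (he0 : 0 ≤ e) (he : e ≤ 1 / 2) {a b : ℤ} (h : a ≠ 0) :
    ((volume : Measure TT).prod volume).real (strip e a b) = 2 * e := by
  have h1 : strip e a b = phi a b 0 1 ⁻¹' (Metric.closedBall 0 e ×ˢ univ) := by
    ext z
    simp [strip, phi_apply]
  have h2 : a * 1 - b * 0 ≠ 0 := by simpa using h
  rw [h1, measureReal_def, (phi_mp h2).measure_preimage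
    (measurableSet_closedBall.prod MeasurableSet.univ).nullMeasurableSet, Measure.prod_prod,
    AddCircle.volume_closedBall, ENNReal.toReal_mul, ENNReal.toReal_ofReal (by positivity),
    min_eq_right (by linarith), UnitAddCircle.measure_univ]
  simp

/-- no form of the family `F N` is small -/
def bad (N : ℕ) (e : ℝ) : Set (TT × TT) := {z | ∀ x ∈ F N, z ∉ strip e (x.1 : ℤ) (x.2 : ℤ)}

theorem bad_le {N : ℕ} (hN : 1 ≤ N) {e : ℝ} (he0 : 0 < e) (he : e ≤ 1 / 2) :
    ((volume : Measure TT).prod volume).real (bad N e) ≤ 4 / (e * (N : ℝ) ^ 2) := by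
  classical
  have hN0 : (0 : ℝ) < N := by exact_mod_cast hN
  have h := cheb ((volume : Measure TT).prod volume) (F N)
    (fun x => strip e (x.1 : ℤ) (x.2 : ℤ)) (fun x _ => (strip_closed _ _ _).measurableSet) (2 * e)
    (by positivity) (fun x hx => strip_one he0.le he (by
      have := (mem_F.1 hx).1
      exact_mod_cast this.ne')) (fun x hx y hy hxy => strip_pair he0.le he (by
      have h1 := indep_F hx hy hxy
      intro h2
      apply h1
      have h3 : (x.1 : ℤ) * y.2 = x.2 * y.1 := by linarith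
      rw [mul_comm y.1 x.2]
      exact_mod_cast h3))
  have hc := card_F N hN
  rw [le_div_iff₀ (by positivity)]
  have h4 : ((volume : Measure TT).prod volume).real (bad N e) * (((N : ℝ) ^ 2 / 8) * (2 * e)) ≤ 1 := by
    refine le_trans ?_ h
    apply mul_le_mul_of_nonneg_left _ measureReal_nonneg
    apply mul_le_mul_of_nonneg_right hc (by positivity)
  nlinarith

theorem ae_torus {τ : ℝ} (hτ0 : 0 ≤ τ) (hτ : τ < 2) :
    ∀ᵐ z ∂((volume : Measure TT).prod volume), ∃ᶠ N : ℕ in atTop,
      z ∉ bad N ((N : ℝ) ^ (-τ) / 2) := by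
  have h0 : Tendsto (fun N : ℕ => ((volume : Measure TT).prod volume).real
      (bad N ((N : ℝ) ^ (-τ) / 2))) atTop (𝓝 0) := by
    have h1 : Tendsto (fun N : ℕ => 8 * (N : ℝ) ^ (-(2 - τ))) atTop (𝓝 0) := by
      have := (tendsto_rpow_neg_atTop (show 0 < 2 - τ by linarith)).comp
        (tendsto_natCast_atTop_atTop (R := ℝ))
      simpa using this.const_mul 8
    refine squeeze_zero' (Eventually.of_forall fun N => measureReal_nonneg) ?_ h1
    filter_upwards [eventually_ge_atTop 1] with N hN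
    have hN0 : (0 : ℝ) < N := by exact_mod_cast hN
    have hN1 : (1 : ℝ) ≤ N := by exact_mod_cast hN
    have he0 : 0 < (N : ℝ) ^ (-τ) / 2 := by positivity
    have he : (N : ℝ) ^ (-τ) / 2 ≤ 1 / 2 := by
      have := Real.rpow_le_one_of_one_le_of_nonpos hN1 (show -τ ≤ 0 by linarith)
      linarith
    refine (bad_le hN he0 he).trans (le_of_eq ?_)
    have e1 : (N : ℝ) ^ (-(2 - τ)) = ((N : ℝ) ^ (-τ) * (N : ℝ) ^ 2)⁻¹ := by
      rw [← Real.rpow_natCast (N : ℝ) 2, ← Real.rpow_add hN0, ← Real.rpow_neg hN0.le]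
      congr 1
      push_cast
      ring
    rw [e1]
    field_simp
    norm_num
  rw [ae_iff]
  have h2 : {z : TT × TT | ¬ ∃ᶠ N : ℕ in atTop, z ∉ bad N ((N : ℝ) ^ (-τ) / 2)} =
      ⋃ n : ℕ, {z | ∀ N ≥ n, z ∈ bad N ((N : ℝ) ^ (-τ) / 2)} := by
    ext z
    simp [Filter.not_frequently, eventually_atTop]
  rw [h2, measure_iUnion_null_iff]
  intro n
  by_contra hne
  have hpos : 0 < ((volume : Measure TT).prod volume).real
      {z | ∀ N ≥ n, z ∈ bad N ((N : ℝ) ^ (-τ) / 2)} := by
    rw [measureReal_def]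
    exact ENNReal.toReal_pos hne (measure_ne_top _ _)
  obtain ⟨N, hN1, hN2⟩ := ((h0.eventually (gt_mem_nhds hpos)).and (eventually_ge_atTop n)).exists
  have h3 : ((volume : Measure TT).prod volume).real
      {z | ∀ N ≥ n, z ∈ bad N ((N : ℝ) ^ (-τ) / 2)} ≤
      ((volume : Measure TT).prod volume).real (bad N ((N : ℝ) ^ (-τ) / 2)) :=
    measureReal_mono (fun z hz => hz N hN2)
  linarith

/-- transfer to the real line -/
theorem ae_real {τ : ℝ} (hτ0 : 0 ≤ τ) (hτ : τ < 2) :
    ∀ᵐ y ∂((volume : Measure ℝ).restrict (Ioc 0 1)), ∀ᵐ x ∂((volume : Measure ℝ).restrict (Ioc 0 1)),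
      ∃ᶠ N : ℕ in atTop, ∃ pq ∈ F N, ∃ r : ℤ,
        |(pq.1 : ℝ) * x + (pq.2 : ℝ) * y + r| ≤ (N : ℝ) ^ (-τ) / 2 := by
  have hmp : MeasurePreserving (fun x : ℝ => (x : TT)) (volume.restrict (Ioc (0 : ℝ) 1)) volume := by
    have := UnitAddCircle.measurePreserving_mk 0
    simpa using this
  have hmp2 : MeasurePreserving (fun z : ℝ × ℝ => ((z.1 : TT), (z.2 : TT)))
      (((volume : Measure ℝ).restrict (Ioc 0 1)).prod ((volume : Measure ℝ).restrict (Ioc 0 1)))
      ((volume : Measure TT).prod volume) := hmp.prod hmp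
  have h1 := hmp2.quasiMeasurePreserving.ae (ae_torus hτ0 hτ)
  have h2 : ∀ᵐ z ∂(((volume : Measure ℝ).restrict (Ioc 0 1)).prod
      ((volume : Measure ℝ).restrict (Ioc 0 1))), ∃ᶠ N : ℕ in atTop, ∃ pq ∈ F N, ∃ r : ℤ,
        |(pq.1 : ℝ) * z.1 + (pq.2 : ℝ) * z.2 + r| ≤ (N : ℝ) ^ (-τ) / 2 := by
    filter_upwards [h1] with z hz
    refine hz.mono fun N hN => ?_
    unfold bad strip at hN
    simp only [mem_ofPred_eq, not_forall, not_not] at hN
    obtain ⟨pq, hpq, h3⟩ := hN
    refine ⟨pq, hpq, -round ((pq.1 : ℝ) * z.1 + (pq.2 : ℝ) * z.2), ?_⟩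
    have h4 : ((pq.1 : ℤ) • ((z.1 : ℝ) : TT) + (pq.2 : ℤ) • ((z.2 : ℝ) : TT)) =
        (((pq.1 : ℝ) * z.1 + (pq.2 : ℝ) * z.2 : ℝ) : TT) := by
      rw [AddCircle.coe_add, ← AddCircle.coe_zsmul, ← AddCircle.coe_zsmul]
      simp
    rw [h4, UnitAddCircle.norm_eq] at h3
    push_cast
    rwa [← sub_eq_add_neg]
  have h5 := Measure.ae_ae_of_ae_prod (Measure.measurePreserving_swap.quasiMeasurePreserving.ae h2)
  exact h5

end Pool.Agent.H540PL
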