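import Pool.Agent.H540PL.Lower
import Pool.Agent.R437.Met.Lim

set_option autoImplicit false

/-! Upper bound for the dimension: covering the strips by balls. -/

namespace Pool.Agent.H540PL

open MeasureTheory Filter Topology Set
open scoped ENNReal

/-- one of the two cases `q ≤ p` (with `a` the coordinate multiplied by `p`) -/
def E1 (a b : Fin 2) (n : ℕ) (w : ℝ) : Set (EuclideanSpace ℝ (Fin 2)) :=
  {x | |x a| ≤ n ∧ |x b| ≤ n ∧ {t : ℤ × ℤ × ℤ | 0 < t.2.1 ∧ t.2.1 ≤ t.1 ∧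
    |(t.1 : ℝ) * x a + (t.2.1 : ℝ) * x b + (t.2.2 : ℝ)| < n * (t.1 : ℝ) ^ (-w)}.Infinite}

theorem dist_le_two (a b : Fin 2) (hab : a ≠ b) (x y : EuclideanSpace ℝ (Fin 2)) :
    dist x y ≤ |x a - y a| + |x b - y b| := by
  have key : dist x y ≤ |x 0 - y 0| + |x 1 - y 1| := by
    rw [EuclideanSpace.dist_eq, Fin.sum_univ_two, Real.dist_eq, Real.dist_eq]
    apply Real.sqrt_le_iff.2
    refine ⟨by positivity, ?_⟩
    nlinarith [abs_nonneg (x 0 - y 0), abs_nonneg (x 1 - y 1)]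
  fin_cases a <;> fin_cases b
  · exact absurd rfl hab
  · exact key
  · rw [add_comm]
    exact key
  · exact absurd rfl hab

/-- the centres -/
noncomputable def cen (a : Fin 2) (w : ℝ) (i : ℤ × ℤ × ℤ × ℤ) : EuclideanSpace ℝ (Fin 2) :=
  WithLp.toLp 2 (fun j => if j = a then
    -((i.2.1 : ℝ) * ((i.2.2.2 : ℝ) * (i.1 : ℝ) ^ (-(w + 1))) + (i.2.2.1 : ℝ)) / (i.1 : ℝ)
    else (i.2.2.2 : ℝ) * (i.1 : ℝ) ^ (-(w + 1)))

/-- the indices -/
def Pn (n : ℕ) (w : ℝ) : Set (ℤ × ℤ × ℤ × ℤ) :=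
  {i | 0 < i.2.1 ∧ i.2.1 ≤ i.1 ∧ |(i.2.2.1 : ℝ)| ≤ 3 * n * (i.1 : ℝ) ∧
    |(i.2.2.2 : ℝ)| ≤ (n + 1) * (i.1 : ℝ) ^ (w + 1) + 1}

theorem E1_sub {a b : Fin 2} (hab : a ≠ b) (n : ℕ) {w : ℝ} (hw : 2 < w) :
    E1 a b n w ⊆ {x | ∃ C : ℝ, {i | i ∈ Pn n w ∧
      dist x (cen a w i) ≤ C * ((i.1 : ℤ) : ℝ) ^ (-(w + 1))}.Infinite} := by
  rintro x ⟨hxa, hxb, hinf⟩
  refine ⟨n + 1, ?_⟩
  refine Set.infinite_of_injOn_mapsTo (f := fun t : ℤ × ℤ × ℤ =>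
    (t.1, t.2.1, t.2.2, round (x b * (t.1 : ℝ) ^ (w + 1)))) ?_ ?_ hinf
  · rintro ⟨p, q, r⟩ _ ⟨p', q', r'⟩ _ h
    simp only [Prod.mk.injEq] at h ⊢
    tauto
  · rintro ⟨p, q, r⟩ ⟨hq, hqp, hval⟩
    simp only at hq hqp hval
    have hp : 0 < p := lt_of_lt_of_le hq hqp
    have hp0 : (0 : ℝ) < p := by exact_mod_cast hp
    have hp1 : (1 : ℝ) ≤ p := by exact_mod_cast (by omega : 1 ≤ p)
    have hq0 : (0 : ℝ) < q := by exact_mod_cast hq
    have hqp' : (q : ℝ) ≤ p := by exact_mod_cast hqp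
    set m : ℤ := round (x b * (p : ℝ) ^ (w + 1)) with hm
    have hpw : 0 < (p : ℝ) ^ (w + 1) := by positivity
    have hpw' : (p : ℝ) ^ (-(w + 1)) = ((p : ℝ) ^ (w + 1))⁻¹ := Real.rpow_neg hp0.le _
    have hpw2 : (p : ℝ) ^ (-w) = (p : ℝ) ^ (-(w + 1)) * p := by
      have : -w = -(w + 1) + 1 := by ring
      rw [this, Real.rpow_add hp0, Real.rpow_one]
    have hpw3 : (p : ℝ) ^ (-w) ≤ 1 := Real.rpow_le_one_of_one_le_of_nonpos hp1 (by linarith)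
    have hround : |x b * (p : ℝ) ^ (w + 1) - m| ≤ 1 / 2 := abs_sub_round _
    set g : ℝ := (p : ℝ) ^ (-(w + 1)) with hg
    have hg0 : 0 < g := by positivity
    have hn0 : (0 : ℝ) ≤ n := Nat.cast_nonneg n
    have hy : |x b - m * g| ≤ g / 2 := by
      have e : x b - m * g = (x b * (p : ℝ) ^ (w + 1) - m) * g := by
        rw [hpw']
        field_simp
      rw [e, abs_mul, abs_of_pos hg0]
      nlinarith
    have hab1 : b ≠ a := hab.symm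
    refine ⟨⟨hq, hqp, ?_, ?_⟩, ?_⟩
    · show |(r : ℝ)| ≤ 3 * n * (p : ℝ)
      have h1 : |(r : ℝ)| ≤ |(p : ℝ) * x a + q * x b + r| + |(p : ℝ) * x a| + |(q : ℝ) * x b| := by
        have e : (r : ℝ) = ((p : ℝ) * x a + q * x b + r) - (p : ℝ) * x a - (q : ℝ) * x b := by ring
        calc |(r : ℝ)| = |((p : ℝ) * x a + q * x b + r) - (p : ℝ) * x a - (q : ℝ) * x b| := by
              rw [← e]
          _ ≤ |((p : ℝ) * x a + q * x b + r) - (p : ℝ) * x a| + |(q : ℝ) * x b| := abs_sub _ _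
          _ ≤ _ := by
              gcongr
              exact abs_sub _ _
      have h2 : |(p : ℝ) * x a| ≤ p * n := by
        rw [abs_mul, abs_of_pos hp0]
        gcongr
      have h3 : |(q : ℝ) * x b| ≤ p * n := by
        rw [abs_mul, abs_of_pos hq0]
        gcongr
      have h4 : (n : ℝ) * (p : ℝ) ^ (-w) ≤ n * p := by
        gcongr
        linarith
      nlinarith
    · show |(m : ℝ)| ≤ (n + 1) * (p : ℝ) ^ (w + 1) + 1
      have h1 : |(m : ℝ)| ≤ |x b * (p : ℝ) ^ (w + 1)| + |x b * (p : ℝ) ^ (w + 1) - m| := by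
        have e : (m : ℝ) = x b * (p : ℝ) ^ (w + 1) - (x b * (p : ℝ) ^ (w + 1) - m) := by ring
        calc |(m : ℝ)| = |x b * (p : ℝ) ^ (w + 1) - (x b * (p : ℝ) ^ (w + 1) - m)| := by rw [← e]
          _ ≤ _ := abs_sub _ _
      rw [abs_mul, abs_of_pos hpw] at h1
      nlinarith [mul_le_mul_of_nonneg_right hxb hpw.le]
    · show dist x (cen a w (p, q, r, m)) ≤ (n + 1) * g
      refine (dist_le_two a b hab _ _).trans ?_
      have e1 : (cen a w (p, q, r, m)) a = -((q : ℝ) * ((m : ℝ) * g) + (r : ℝ)) / (p : ℝ) := by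
        simp [cen, hg]
      have e2 : (cen a w (p, q, r, m)) b = (m : ℝ) * g := by
        simp [cen, hg, hab1]
      rw [e1, e2]
      have e3 : x a - -((q : ℝ) * ((m : ℝ) * g) + (r : ℝ)) / (p : ℝ) =
          (((p : ℝ) * x a + q * x b + r) - q * (x b - m * g)) / p := by
        field_simp
        ring
      rw [e3, abs_div, abs_of_pos hp0]
      have h5 : |((p : ℝ) * x a + q * x b + r) - q * (x b - m * g)| ≤ n * (g * p) + p * (g / 2) := by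
        refine (abs_sub _ _).trans ?_
        rw [← hpw2, abs_mul, abs_of_pos hq0]
        apply add_le_add hval.le
        apply mul_le_mul hqp' hy (abs_nonneg _) hp0.le
      have h6 : |((p : ℝ) * x a + q * x b + r) - q * (x b - m * g)| / p ≤ n * g + g / 2 := by
        rw [div_le_iff₀ hp0]
        refine h5.trans (le_of_eq ?_)
        ring
      linarith

theorem count (n : ℕ) {w : ℝ} (hw : 2 < w) (B : ℝ) (hB : 1 ≤ B) :
    {i : ℤ × ℤ × ℤ × ℤ | i ∈ Pn n w ∧ ((i.1 : ℤ) : ℝ) ≤ B}.Finite ∧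
      (({i : ℤ × ℤ × ℤ × ℤ | i ∈ Pn n w ∧ ((i.1 : ℤ) : ℝ) ≤ B}.ncard : ℕ) : ℝ) ≤
        ((6 * n + 1) * (2 * n + 5)) * B ^ (w + 4) := by
  classical
  have hB0 : 0 < B := by linarith
  set R : ℤ := ⌊3 * n * B⌋ with hR
  set S : ℤ := ⌊(n + 1) * B ^ (w + 1) + 1⌋ with hS
  have hBw : 1 ≤ B ^ (w + 1) := Real.one_le_rpow hB (by linarith)
  have hR0 : 0 ≤ R := Int.floor_nonneg.2 (by positivity)
  have hS0 : 0 ≤ S := Int.floor_nonneg.2 (by positivity)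
  have hb1 : 1 ≤ ⌊B⌋ := Int.le_floor.2 (by exact_mod_cast hB)
  set U : Finset (ℤ × ℤ × ℤ × ℤ) := Finset.Icc 1 ⌊B⌋ ×ˢ (Finset.Icc 1 ⌊B⌋ ×ˢ
    (Finset.Icc (-R) R ×ˢ Finset.Icc (-S) S)) with hU
  have hsub : {i : ℤ × ℤ × ℤ × ℤ | i ∈ Pn n w ∧ ((i.1 : ℤ) : ℝ) ≤ B} ⊆ (U : Set (ℤ × ℤ × ℤ × ℤ)) := by
    rintro ⟨p, q, r, m⟩ ⟨⟨hq, hqp, hr, hm⟩, hpB⟩
    simp only at hq hqp hr hm hpB
    have hp : 0 < p := lt_of_lt_of_le hq hqp
    have hp0 : (0 : ℝ) < p := by exact_mod_cast hp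
    have h1 : p ≤ ⌊B⌋ := Int.le_floor.2 hpB
    have h2 : |(r : ℝ)| ≤ 3 * n * B := hr.trans (by gcongr)
    have h3 : |(m : ℝ)| ≤ (n + 1) * B ^ (w + 1) + 1 := hm.trans (by
      gcongr)
    rw [abs_le] at h2 h3
    have h4 : r ≤ R := Int.le_floor.2 h2.2
    have h5 : -r ≤ R := Int.le_floor.2 (by push_cast; linarith)
    have h6 : m ≤ S := Int.le_floor.2 h3.2
    have h7 : -m ≤ S := Int.le_floor.2 (by push_cast; linarith)
    rw [Finset.mem_coe, hU, Finset.mem_product, Finset.mem_product, Finset.mem_product,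
      Finset.mem_Icc, Finset.mem_Icc, Finset.mem_Icc, Finset.mem_Icc]
    exact ⟨⟨show (1 : ℤ) ≤ p by omega, h1⟩, ⟨show (1 : ℤ) ≤ q by omega, show q ≤ ⌊B⌋ by omega⟩,
      ⟨show -R ≤ r by omega, h4⟩, ⟨show -S ≤ m by omega, h6⟩⟩
  refine ⟨U.finite_toSet.subset hsub, ?_⟩
  have hcard : (U.card : ℝ) = (⌊B⌋ : ℝ) * ((⌊B⌋ : ℝ) * ((2 * R + 1) * (2 * S + 1))) := by
    rw [hU, Finset.card_product, Finset.card_product, Finset.card_product, Int.card_Icc,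
      Int.card_Icc, Int.card_Icc]
    have e1 : (((⌊B⌋ + 1 - 1).toNat : ℕ) : ℝ) = (⌊B⌋ : ℝ) := by
      have : (((⌊B⌋ + 1 - 1).toNat : ℕ) : ℤ) = ⌊B⌋ := by omega
      exact_mod_cast this
    have e2 : (((R + 1 - -R).toNat : ℕ) : ℝ) = 2 * R + 1 := by
      have : (((R + 1 - -R).toNat : ℕ) : ℤ) = 2 * R + 1 := by omega
      exact_mod_cast this
    have e3 : (((S + 1 - -S).toNat : ℕ) : ℝ) = 2 * S + 1 := by
      have : (((S + 1 - -S).toNat : ℕ) : ℤ) = 2 * S + 1 := by omega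
      exact_mod_cast this
    push_cast [e1, e2, e3]
    rfl
  have h1 : (({i : ℤ × ℤ × ℤ × ℤ | i ∈ Pn n w ∧ ((i.1 : ℤ) : ℝ) ≤ B}.ncard : ℕ) : ℝ) ≤ U.card := by
    have := Set.ncard_le_ncard hsub U.finite_toSet
    rw [Set.ncard_coe_finset] at this
    exact_mod_cast this
  refine h1.trans ?_
  rw [hcard]
  have f1 : (⌊B⌋ : ℝ) ≤ B := Int.floor_le B
  have f2 : (R : ℝ) ≤ 3 * n * B := Int.floor_le _
  have f3 : (S : ℝ) ≤ (n + 1) * B ^ (w + 1) + 1 := Int.floor_le _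
  have f0 : (0 : ℝ) ≤ (⌊B⌋ : ℝ) := by exact_mod_cast (by omega : 0 ≤ ⌊B⌋)
  have g2 : (0 : ℝ) ≤ (R : ℝ) := by exact_mod_cast hR0
  have g3 : (0 : ℝ) ≤ (S : ℝ) := by exact_mod_cast hS0
  have hn0 : (0 : ℝ) ≤ n := Nat.cast_nonneg n
  have k2 : 2 * (R : ℝ) + 1 ≤ (6 * n + 1) * B := by nlinarith
  have k3 : 2 * (S : ℝ) + 1 ≤ (2 * n + 5) * B ^ (w + 1) := by nlinarith
  have e4 : B ^ (w + 4) = B * (B * (B * B ^ (w + 1))) := by
    have : w + 4 = (w + 1) + 1 + 1 + 1 := by ring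
    rw [this, Real.rpow_add hB0, Real.rpow_add hB0, Real.rpow_add hB0, Real.rpow_one]
    ring
  calc (⌊B⌋ : ℝ) * ((⌊B⌋ : ℝ) * ((2 * R + 1) * (2 * S + 1)))
      ≤ B * (B * (((6 * n + 1) * B) * ((2 * n + 5) * B ^ (w + 1)))) := by
        gcongr
    _ = _ := by rw [e4]; ring

theorem dim_E1 {a b : Fin 2} (hab : a ≠ b) (n : ℕ) {w : ℝ} (hw : 2 < w) :
    dimH (E1 a b n w) ≤ ENNReal.ofReal ((w + 4) / (w + 1)) := by
  refine (dimH_mono (E1_sub hab n hw)).trans ?_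
  refine Pool.Agent.R437.Met.dim_limsup (Pn n w) (cen a w) (fun i => ((i.1 : ℤ) : ℝ)) ?_
    (s := w + 4) (τ := w + 1) (by linarith) (by linarith) ?_
  · intro i hi
    have : 1 ≤ i.1 := by
      have h1 := hi.1
      have h2 := hi.2.1
      omega
    show (1 : ℝ) ≤ ((i.1 : ℤ) : ℝ)
    exact_mod_cast this
  · intro δ hδ
    refine ⟨(6 * n + 1) * (2 * n + 5), fun B hB => ?_⟩
    obtain ⟨h1, h2⟩ := count n hw B hB
    refine ⟨h1, h2.trans ?_⟩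
    apply mul_le_mul_of_nonneg_left _ (by positivity)
    exact Real.rpow_le_rpow_of_exponent_le hB (by linarith)

theorem E_sub (w : ℝ) : E w ⊆ ⋃ n : ℕ, (E1 0 1 n w ∪ E1 1 0 n w) := by
  rintro x ⟨c, hc, hinf⟩
  obtain ⟨n, hn⟩ := exists_nat_ge (max c (max |x 0| |x 1|))
  have hnc : c ≤ n := (le_max_left _ _).trans hn
  have hn0 : |x 0| ≤ n := ((le_max_left _ _).trans (le_max_right _ _)).trans hn
  have hn1 : |x 1| ≤ n := ((le_max_right _ _).trans (le_max_right _ _)).trans hn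
  refine mem_iUnion.2 ⟨n, ?_⟩
  set T := {t : ℤ × ℤ × ℤ | 0 < t.1 ∧ 0 < t.2.1 ∧
    |(t.1 : ℝ) * x 0 + (t.2.1 : ℝ) * x 1 + (t.2.2 : ℝ)| <
      c * ((max t.1 t.2.1 : ℤ) : ℝ) ^ (-w)} with hT
  have hsplit : T = (T ∩ {t | t.2.1 ≤ t.1}) ∪ (T ∩ {t | t.1 ≤ t.2.1}) := by
    rw [← inter_union_distrib_left]
    ext t
    simp only [mem_inter_iff, mem_union, mem_ofPred_eq]
    exact ⟨fun h => ⟨h, le_total _ _⟩, fun h => h.1⟩
  rw [hsplit, Set.infinite_union] at hinf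
  rcases hinf with h | h
  · left
    refine ⟨hn0, hn1, h.mono ?_⟩
    rintro ⟨p, q, r⟩ ⟨⟨hp, hq, hv⟩, hle⟩
    simp only [mem_ofPred_eq] at hp hq hv hle
    refine ⟨hq, hle, ?_⟩
    rw [max_eq_left hle] at hv
    have hp0 : (0 : ℝ) < p := by exact_mod_cast hp
    exact hv.trans_le (mul_le_mul_of_nonneg_right hnc (by positivity))
  · right
    refine ⟨hn1, hn0, ?_⟩
    refine Set.infinite_of_injOn_mapsTo (f := fun t : ℤ × ℤ × ℤ => (t.2.1, t.1, t.2.2)) ?_ ?_ h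
    · rintro ⟨p, q, r⟩ _ ⟨p', q', r'⟩ _ h
      simp only [Prod.mk.injEq] at h ⊢
      tauto
    · rintro ⟨p, q, r⟩ ⟨⟨hp, hq, hv⟩, hle⟩
      simp only [mem_ofPred_eq] at hp hq hv hle
      refine ⟨hp, hle, ?_⟩
      rw [max_eq_right hle] at hv
      have hq0 : (0 : ℝ) < q := by exact_mod_cast hq
      show |(q : ℝ) * x 1 + (p : ℝ) * x 0 + (r : ℝ)| < n * (q : ℝ) ^ (-w)
      have e : (q : ℝ) * x 1 + (p : ℝ) * x 0 + (r : ℝ) = (p : ℝ) * x 0 + q * x 1 + r := by ring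
      rw [e]
      exact hv.trans_le (mul_le_mul_of_nonneg_right hnc (by positivity))

theorem upper {w : ℝ} (hw : 2 < w) : dimH (E w) ≤ ENNReal.ofReal (1 + 3 / (w + 1)) := by
  refine (dimH_mono (E_sub w)).trans ?_
  have hw1 : w + 1 ≠ 0 := by linarith
  have e : 1 + 3 / (w + 1) = (w + 4) / (w + 1) := by
    field_simp
    ring
  rw [dimH_iUnion, e]
  refine iSup_le fun n => ?_
  rw [dimH_union]
  exact max_le (dim_E1 (by decide) n hw) (dim_E1 (by decide) n hw)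

end Pool.Agent.H540PL
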